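import Pool.Agent.Q204.AC.Mul

/-! Job AC2-PDBD: elementary properties of positive-definite functions (`S_PDBD`). -/

open MeasureTheory Topology Filter
open scoped ENNReal NNReal ComplexConjugate ComplexOrder

noncomputable section

namespace Pool.Agent.Q204.AC

open Pool.Agent.Q80.AC

theorem pdbd : S_PDBD := by
  intro H _ φ hφ
  have h0 := hφ 1 ![1] ![1]
  simp at h0
  refine ⟨h0.1, h0.2, fun x => herm hφ x, fun x => ?_⟩
  by_cases hx : φ x = 0
  · rw [hx, norm_zero]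
    exact h0.2
  have hn : (0 : ℝ) < ‖φ x‖ := norm_pos_iff.2 hx
  set z : ℂ := -(conj (φ x)) / (‖φ x‖ : ℂ) with hz
  have h1 := (hφ 2 ![1, x] ![1, z]).2
  have h2 : (∑ i : Fin 2, ∑ j : Fin 2, conj ((![1, z] : Fin 2 → ℂ) i) * (![1, z] : Fin 2 → ℂ) j *
      φ (((![1, x] : Fin 2 → H) i)⁻¹ * (![1, x] : Fin 2 → H) j)) =
      φ 1 + z * φ x + conj z * φ x⁻¹ + conj z * z * φ 1 := by
    simp [Fin.sum_univ_two]
    ring
  rw [h2, herm hφ x] at h1
  have hn' : (‖φ x‖ : ℂ) ≠ 0 := by exact_mod_cast hn.ne'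
  have h3 : z * φ x = -(‖φ x‖ : ℂ) := by
    rw [hz, div_mul_eq_mul_div, neg_mul, Complex.conj_mul']
    field_simp
  have h4 : conj z * conj (φ x) = -(‖φ x‖ : ℂ) := by
    rw [← map_mul, h3, map_neg, Complex.conj_ofReal]
  have h5 : conj z * z = 1 := by
    rw [hz, map_div₀, map_neg, Complex.conj_conj, Complex.conj_ofReal]
    rw [div_mul_div_comm, neg_mul_neg, Complex.mul_conj', ← pow_two]
    field_simp
  rw [h3, h4, h5] at h1
  simp at h1
  linarith

end Pool.Agent.Q204.AC
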