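import Pool.Agent.Q204.AC.Mul

/-! Job AC2-PDEXP: exponentials of positive-definite functions (`S_PDEXP`); also `S_PDLIM`. -/

open MeasureTheory Topology Filter
open scoped ENNReal NNReal ComplexConjugate ComplexOrder

noncomputable section

namespace Pool.Agent.Q204.AC

open Pool.Agent.Q80.AC

variable {H : Type} [Group H]

theorem pd_one : PosDef (fun _ : H => (1 : ℂ)) := by
  intro n x c
  have h : (∑ i, ∑ j, conj (c i) * c j * (1 : ℂ)) = ((Complex.normSq (∑ i, c i) : ℝ) : ℂ) := by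
    rw [Complex.normSq_eq_conj_mul_self, map_sum, Finset.sum_mul_sum]
    simp only [mul_one]
  rw [h]
  exact ⟨Complex.ofReal_im _, by rw [Complex.ofReal_re]; exact Complex.normSq_nonneg _⟩

theorem pd_smul (a : ℝ) (φ : H → ℂ) (ha : 0 ≤ a) (hφ : PosDef φ) : PosDef fun s => (a : ℂ) * φ s := by
  intro n x c
  have h : (∑ i, ∑ j, conj (c i) * c j * ((a : ℂ) * φ ((x i)⁻¹ * x j))) =
      (a : ℂ) * ∑ i, ∑ j, conj (c i) * c j * φ ((x i)⁻¹ * x j) := by
    simp only [Finset.mul_sum]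
    refine Finset.sum_congr rfl fun i _ => Finset.sum_congr rfl fun j _ => by ring
  rw [h, Complex.im_ofReal_mul, Complex.re_ofReal_mul, (hφ n x c).1]
  exact ⟨by simp, mul_nonneg ha (hφ n x c).2⟩

theorem pd_add (φ ψ : H → ℂ) (hφ : PosDef φ) (hψ : PosDef ψ) : PosDef fun s => φ s + ψ s := by
  intro n x c
  have h : (∑ i, ∑ j, conj (c i) * c j * (φ ((x i)⁻¹ * x j) + ψ ((x i)⁻¹ * x j))) =
      (∑ i, ∑ j, conj (c i) * c j * φ ((x i)⁻¹ * x j)) +
        ∑ i, ∑ j, conj (c i) * c j * ψ ((x i)⁻¹ * x j) := by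
    simp only [← Finset.sum_add_distrib]
    refine Finset.sum_congr rfl fun i _ => Finset.sum_congr rfl fun j _ => by ring
  rw [h, Complex.add_im, Complex.add_re, (hφ n x c).1, (hψ n x c).1]
  exact ⟨by simp, add_nonneg (hφ n x c).2 (hψ n x c).2⟩

theorem pd_lim (φ : ℕ → H → ℂ) (ψ : H → ℂ) (hφ : ∀ n, PosDef (φ n))
    (h : ∀ s, Tendsto (fun n => φ n s) atTop (𝓝 (ψ s))) : PosDef ψ := by
  intro n x c
  have h1 : Tendsto (fun k => ∑ i, ∑ j, conj (c i) * c j * φ k ((x i)⁻¹ * x j)) atTop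
      (𝓝 (∑ i, ∑ j, conj (c i) * c j * ψ ((x i)⁻¹ * x j))) :=
    tendsto_finsetSum _ fun i _ => tendsto_finsetSum _ fun j _ => (h _).const_mul _
  have h2 := (Complex.continuous_im.tendsto _).comp h1
  have h3 := (Complex.continuous_re.tendsto _).comp h1
  refine ⟨?_, ge_of_tendsto' h3 fun k => (hφ k n x c).2⟩
  have h4 : (Complex.im ∘ fun k => ∑ i, ∑ j, conj (c i) * c j * φ k ((x i)⁻¹ * x j)) = fun _ => 0 := by
    funext k
    exact (hφ k n x c).1
  rw [h4] at h2
  exact tendsto_nhds_unique h2 tendsto_const_nhds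

theorem pdlim : S_PDLIM := fun _ _ =>
  ⟨pd_one, pd_smul, pd_add, pd_lim⟩

theorem pd_pow (φ : H → ℂ) (hφ : PosDef φ) (k : ℕ) : PosDef fun s => φ s ^ k := by
  induction k with
  | zero => simpa using (pd_one (H := H))
  | succ k ih =>
    have := pdmul H _ _ ih hφ
    simpa only [pow_succ] using this

theorem pd_sum (f : ℕ → H → ℂ) (hf : ∀ k, PosDef (f k)) (n : ℕ) :
    PosDef fun s => ∑ k ∈ Finset.range n, f k s := by
  induction n with
  | zero =>
    have := pd_smul 0 _ le_rfl (pd_one (H := H))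
    simpa using this
  | succ n ih =>
    have := pd_add _ _ ih (hf n)
    simpa only [Finset.sum_range_succ] using this

/-- a power series with nonnegative coefficients -/
theorem pd_series (φ ψ : H → ℂ) (hφ : PosDef φ) (a : ℕ → ℝ) (ha : ∀ k, 0 ≤ a k)
    (h : ∀ s, HasSum (fun k => (a k : ℂ) * φ s ^ k) (ψ s)) : PosDef ψ :=
  pd_lim _ ψ (fun n => pd_sum (fun k s => (a k : ℂ) * φ s ^ k)
    (fun k => pd_smul _ _ (ha k) (pd_pow φ hφ k)) n) fun s => (h s).tendsto_sum_nat

theorem exp_hasSum (z : ℂ) : HasSum (fun k : ℕ => z ^ k / (k.factorial : ℂ)) (Complex.exp z) := by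
  rw [Complex.exp_eq_exp_ℂ]
  exact NormedSpace.expSeries_div_hasSum_exp z

theorem dsl_hasSum (t : ℝ) (z : ℂ) :
    HasSum (fun k : ℕ => ((t ^ (k + 1) / ((k + 1).factorial : ℝ) : ℝ) : ℂ) * z ^ k)
      (dslope (fun z : ℂ => Complex.exp (t * z)) 0 z) := by
  by_cases hz : z = 0
  · subst hz
    rw [dslope_same]
    have h1 : deriv (fun z : ℂ => Complex.exp (t * z)) 0 = t := by
      have : HasDerivAt (fun z : ℂ => Complex.exp (t * z)) (Complex.exp (t * 0) * (t * 1)) 0 :=
        ((hasDerivAt_id (0 : ℂ)).const_mul (t : ℂ)).cexp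
      rw [this.deriv]
      simp
    rw [h1]
    have h2 := hasSum_single (f := fun k : ℕ =>
      ((t ^ (k + 1) / ((k + 1).factorial : ℝ) : ℝ) : ℂ) * (0 : ℂ) ^ k) 0 (fun k hk => by
        simp [zero_pow hk])
    simpa using h2
  · rw [dslope_of_ne _ hz, slope_def_field]
    have h1 := (hasSum_nat_add_iff' 1).2 (exp_hasSum (t * z))
    simp only [Finset.range_one, Finset.sum_singleton, pow_zero, Nat.factorial_zero, Nat.cast_one,
      div_one] at h1
    have h2 := h1.mul_left z⁻¹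
    have h3 : (fun k : ℕ => z⁻¹ * ((t * z) ^ (k + 1) / ((k + 1).factorial : ℂ))) =
        fun k : ℕ => ((t ^ (k + 1) / ((k + 1).factorial : ℝ) : ℝ) : ℂ) * z ^ k := by
      funext k
      push_cast
      rw [mul_pow, pow_succ z]
      field_simp
    rw [h3] at h2
    have h4 : (Complex.exp (t * z) - Complex.exp (t * 0)) / (z - 0) =
        z⁻¹ * (Complex.exp (t * z) - 1) := by
      rw [mul_zero, Complex.exp_zero, sub_zero, div_eq_inv_mul]
    rw [h4]
    exact h2

theorem pdexp : S_PDEXP := by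
  intro H _ _ φ t hφ ht
  have hfac : ∀ k : ℕ, (0 : ℝ) ≤ t ^ (k + 1) / ((k + 1).factorial : ℝ) := fun k => by positivity
  refine ⟨?_, fun s => dslope (fun z : ℂ => Complex.exp (t * z)) 0 (φ s), ?_, ?_, ?_, ?_⟩
  · refine pd_series φ _ hφ (fun k => Real.exp (-t) * (t ^ k / (k.factorial : ℝ)))
      (fun k => by positivity) fun s => ?_
    have h1 := (exp_hasSum (t * φ s)).mul_left (Complex.exp (-t))
    rw [← Complex.exp_add] at h1
    have h2 : (-(t : ℂ) + t * φ s) = t * (φ s - 1) := by ring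
    rw [h2] at h1
    have h3 : (fun k : ℕ => ((Real.exp (-t) * (t ^ k / (k.factorial : ℝ)) : ℝ) : ℂ) * φ s ^ k) =
        fun k : ℕ => Complex.exp (-t) * ((t * φ s) ^ k / (k.factorial : ℂ)) := by
      funext k
      push_cast
      rw [mul_pow]
      ring
    rw [h3]
    exact h1
  · exact pd_series φ _ hφ _ hfac fun s => dsl_hasSum t (φ s)
  · intro s
    have h := sub_smul_dslope (fun z : ℂ => Complex.exp (t * z)) 0 (φ s)
    rw [sub_zero, smul_eq_mul] at h
    rw [h]
    simp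
  · intro hc
    have h1 : Continuous (dslope (fun z : ℂ => Complex.exp (t * z)) 0) := by
      rw [← continuousOn_univ]
      rw [continuousOn_dslope univ_mem]
      exact ⟨by fun_prop, by fun_prop⟩
    exact h1.comp hc
  · intro h1
    simp only [h1]
    rw [dslope_of_ne _ one_ne_zero, slope_def_field]
    simp

end Pool.Agent.Q204.AC
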