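import Pool.Agent.Q80.AC.Stm2

open MeasureTheory Topology Filter
open scoped ENNReal NNReal ComplexConjugate

noncomputable section

namespace Pool.Agent.Q204.AC

open Pool.Agent.Q80.AC

theorem fasum : S_FASUM := by
  intro H _ _ _ m _ C φ h hC
  choose ξ η hs hc hφ using h
  have hnn : 0 ≤ (fun p : ℕ × ℕ => ‖ξ p.1 p.2‖ * ‖η p.1 p.2‖) := fun p => by
    simp only [Pi.zero_apply]; positivity
  have hsum : Summable (fun p : ℕ × ℕ => ‖ξ p.1 p.2‖ * ‖η p.1 p.2‖) := by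
    rw [summable_prod_of_nonneg hnn]
    refine ⟨fun k => hs k, ?_⟩
    exact Summable.of_nonneg_of_le (fun k => tsum_nonneg fun n => by positivity) hc hC
  have hle : ∀ s, ∀ p : ℕ × ℕ, ‖(inner ℂ (η p.1 p.2) (lam m s (ξ p.1 p.2)) : ℂ)‖ ≤
      ‖ξ p.1 p.2‖ * ‖η p.1 p.2‖ := by
    intro s p
    refine (norm_inner_le_norm _ _).trans ?_
    rw [(lam m s).norm_map, mul_comm]
  have hg : ∀ s, Summable (fun p : ℕ × ℕ => (inner ℂ (η p.1 p.2) (lam m s (ξ p.1 p.2)) : ℂ)) :=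
    fun s => Summable.of_norm_bounded hsum (hle s)
  let e : ℕ ≃ ℕ × ℕ := Nat.pairEquiv.symm
  refine ⟨fun n => ξ (e n).1 (e n).2, fun n => η (e n).1 (e n).2, ?_, ?_, ?_⟩
  · exact (e.summable_iff (f := fun p : ℕ × ℕ => ‖ξ p.1 p.2‖ * ‖η p.1 p.2‖)).2 hsum
  · rw [e.tsum_eq (fun p : ℕ × ℕ => ‖ξ p.1 p.2‖ * ‖η p.1 p.2‖), hsum.tsum_prod]
    exact Summable.tsum_le_tsum hc hsum.prod hC
  · intro s
    rw [e.tsum_eq (fun p : ℕ × ℕ => (inner ℂ (η p.1 p.2) (lam m s (ξ p.1 p.2)) : ℂ)), (hg s).tsum_prod]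
    exact tsum_congr fun k => hφ k s

end Pool.Agent.Q204.AC
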