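import Pool.Agent.Q204.AC.Mul

/-! Job AC2-KOL: Kolmogorov decomposition of a positive-definite function (`S_KOL`). -/

open MeasureTheory Topology Filter TopologicalSpace
open scoped ENNReal NNReal ComplexConjugate ComplexOrder

noncomputable section

namespace Pool.Agent.Q204.AC

open Pool.Agent.Q80.AC

lemma orthonormal_countable {H : Type*} [NormedAddCommGroup H] [InnerProductSpace ℂ H]
    [TopologicalSpace.SeparableSpace H] {ι : Type*} {b : ι → H} (hb : Orthonormal ℂ b) :
    Countable ι := by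
  have hdisj : Pairwise (Function.onFun Disjoint (fun i => Metric.ball (b i) (1 / 2))) := by
    intro i j hij
    apply Metric.ball_disjoint_ball
    have h1 : dist (b i) (b j) ^ 2 = 2 := by
      rw [dist_eq_norm, @norm_sub_sq ℂ, hb.1 i, hb.1 j, hb.2 hij]; norm_num
    have h0 : 0 ≤ dist (b i) (b j) := dist_nonneg
    nlinarith
  exact hdisj.countable_of_isOpen_disjoint (fun i => Metric.isOpen_ball)
    (fun i => ⟨b i, Metric.mem_ball_self (by norm_num)⟩)

theorem exists_isometry_l2 (H : Type*) [NormedAddCommGroup H] [InnerProductSpace ℂ H]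
    [CompleteSpace H] [TopologicalSpace.SeparableSpace H] :
    Nonempty (H →ₗᵢ[ℂ] lp (fun _ : ℕ => ℂ) 2) := by
  classical
  obtain ⟨w, b, -⟩ := exists_hilbertBasis ℂ H
  haveI : Countable w := orthonormal_countable b.orthonormal
  obtain ⟨e, he⟩ := exists_injective_nat w
  let v : w → lp (fun _ : ℕ => ℂ) 2 := fun i => lp.single 2 (e i) (1 : ℂ)
  have hv : Orthonormal ℂ v := by
    rw [orthonormal_iff_ite]
    intro i j
    change inner ℂ (lp.single 2 (e i) (1:ℂ) : lp (fun _ : ℕ => ℂ) 2) (lp.single 2 (e j) (1:ℂ)) = _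
    rw [lp.inner_single_left, lp.single_apply, Pi.single_apply]
    by_cases h : i = j
    · simp [h]
    · have : e i ≠ e j := fun hh => h (he hh)
      simp [h, this]
  exact ⟨hv.orthogonalFamily.linearIsometry.comp b.repr.toLinearIsometry⟩

/-- the kernel `K(x, y) = θ(x y⁻¹)` -/
def Kk {H : Type} [Group H] (θ : H → ℂ) : Matrix H H (ℂ →L[ℂ] ℂ) :=
  Matrix.of fun x y => θ (x * y⁻¹) • ContinuousLinearMap.id ℂ ℂ

theorem Kk_apply {H : Type} [Group H] (θ : H → ℂ) (x y : H) (z : ℂ) :
    Kk θ x y z = θ (x * y⁻¹) * z := by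
  simp [Kk]

theorem Kk_psd {H : Type} [Group H] {θ : H → ℂ} (h : PosDef θ) : (Kk θ).PosSemidef := by
  have tf := (RKHS.posSemidef_tfae (K := Kk θ)).out 0 2
  refine tf.2 ⟨?_, fun vv => ?_⟩
  · ext x y
    refine ext_inner_right ℂ fun w ↦ ?_
    rw [Matrix.conjTranspose_apply, ContinuousLinearMap.star_eq_adjoint,
      ContinuousLinearMap.adjoint_inner_left, Kk_apply, Kk_apply]
    have h1 : θ (y * x⁻¹) = conj (θ (x * y⁻¹)) := by
      rw [← herm h]
      congr 1
      group
    rw [h1]
    simp only [RCLike.inner_apply, map_mul, map_one, mul_one]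
    ring
  · let e := vv.support.equivFin
    have h1 := (h vv.support.card (fun i => ((e.symm i : vv.support) : H)⁻¹)
      (fun i => vv (e.symm i))).2
    have h2 : (vv.sum fun x w ↦ vv.sum fun x' w' ↦ inner ℂ (Kk θ x' x w) w') =
        ∑ i, ∑ j, conj (vv (e.symm i)) * vv (e.symm j) *
          θ ((((e.symm i : vv.support) : H)⁻¹)⁻¹ * ((e.symm j : vv.support) : H)⁻¹) := by
      simp only [Finsupp.sum]
      rw [← Finset.sum_coe_sort, ← Equiv.sum_comp e.symm]
      refine Finset.sum_congr rfl fun i _ => ?_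
      rw [← Finset.sum_coe_sort, ← Equiv.sum_comp e.symm]
      refine Finset.sum_congr rfl fun j _ => ?_
      rw [Kk_apply, inv_inv]
      have h3 : θ (((e.symm j : vv.support) : H) * ((e.symm i : vv.support) : H)⁻¹) =
          conj (θ (((e.symm i : vv.support) : H) * ((e.symm j : vv.support) : H)⁻¹)) := by
        rw [← herm h]
        congr 1
        group
      rw [h3]
      simp only [RCLike.inner_apply, map_mul, Complex.conj_conj]
      ring
    rw [h2]
    exact h1

theorem kol : S_KOL := by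
  intro H _ _ _ _ θ h hc
  haveI : Fact (Kk θ).PosSemidef := ⟨Kk_psd h⟩
  let w : H → RKHS.OfKernel (Kk θ) := fun x => RKHS.kerFun (RKHS.OfKernel (Kk θ)) x 1
  have hw : ∀ x y, (inner ℂ (w x) (w y) : ℂ) = θ (x * y⁻¹) := by
    intro x y
    have h1 := RKHS.kernel_inner (RKHS.OfKernel (Kk θ)) y x 1 1
    rw [RKHS.OfKernel.kernel_ofKernel, Kk_apply] at h1
    change (inner ℂ (w x) (w y) : ℂ) = _
    rw [← h1]
    have h3 : θ (y * x⁻¹) = conj (θ (x * y⁻¹)) := by
      rw [← herm h]
      congr 1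
      group
    rw [h3]
    simp
  have hd : ∀ x y, ‖w x - w y‖ ^ 2 = 2 * (θ 1).re - 2 * (θ (x * y⁻¹)).re := by
    intro x y
    rw [@norm_sub_sq ℂ, hw, @norm_sq_eq_re_inner ℂ _ _ _ _ (w x), @norm_sq_eq_re_inner ℂ _ _ _ _ (w y), hw, hw]
    simp only [mul_inv_cancel, RCLike.re_to_complex]
    ring
  have hwc : Continuous w := by
    rw [continuous_iff_continuousAt]
    intro y
    rw [ContinuousAt, tendsto_iff_norm_sub_tendsto_zero]
    have h1 : Tendsto (fun x => Real.sqrt (2 * (θ 1).re - 2 * (θ (x * y⁻¹)).re)) (𝓝 y)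
        (𝓝 (Real.sqrt (2 * (θ 1).re - 2 * (θ (y * y⁻¹)).re))) := by
      have h2 : Continuous fun x => Real.sqrt (2 * (θ 1).re - 2 * (θ (x * y⁻¹)).re) := by fun_prop
      exact h2.tendsto y
    rw [mul_inv_cancel, sub_self, Real.sqrt_zero] at h1
    refine h1.congr fun x => ?_
    rw [← hd, Real.sqrt_sq (norm_nonneg _)]
  haveI : SeparableSpace (RKHS.OfKernel (Kk θ)) := by
    rw [← isSeparable_univ_iff]
    have h1 := RKHS.kerFun_dense (RKHS.OfKernel (Kk θ)) (𝕜 := ℂ) (X := H) (V := ℂ)
    have h2 : (Set.univ : Set (RKHS.OfKernel (Kk θ))) = closure (Submodule.span ℂ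
        {f | ∃ x v, RKHS.kerFun (RKHS.OfKernel (Kk θ)) x v = f} : Set (RKHS.OfKernel (Kk θ))) := by
      rw [← Submodule.topologicalClosure_coe, h1]
      rfl
    rw [h2]
    refine (IsSeparable.span ?_).closure
    have h3 : {f | ∃ x v, RKHS.kerFun (RKHS.OfKernel (Kk θ)) x v = f} =
        Set.range fun p : H × ℂ => p.2 • w p.1 := by
      ext f
      simp only [Set.mem_ofPred_eq, Set.mem_range, Prod.exists]
      refine exists_congr fun x => exists_congr fun v => ?_
      have h4 : RKHS.kerFun (RKHS.OfKernel (Kk θ)) x v = v • w x := by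
        rw [← map_smul]
        simp
      rw [h4]
    rw [h3]
    exact isSeparable_range (by fun_prop)
  obtain ⟨J⟩ := exists_isometry_l2 (RKHS.OfKernel (Kk θ))
  refine ⟨fun x => J (w x), J.continuous.comp hwc, fun x y => ?_⟩
  rw [J.inner_map_map, hw]

end Pool.Agent.Q204.AC
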