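import Pool.Agent.Q80.AC.Stm2

/-! Job AC2-PDMUL: products of positive-definite functions (`S_PDMUL`). -/

open MeasureTheory Topology Filter
open scoped ENNReal NNReal ComplexConjugate ComplexOrder

noncomputable section

namespace Pool.Agent.Q204.AC

open Pool.Agent.Q80.AC

theorem herm {H : Type} [Group H] {φ : H → ℂ} (h : PosDef φ) (x : H) : φ x⁻¹ = conj (φ x) := by
  have h0 := (h 2 ![1, x] ![1, 0]).1
  have h1 := (h 2 ![1, x] ![1, 1]).1
  have h2 := (h 2 ![1, x] ![1, Complex.I]).1
  simp [Fin.sum_univ_two] at h0 h1 h2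
  apply Complex.ext
  · simp only [Complex.conj_re]
    linarith
  · simp only [Complex.conj_im]
    linarith

theorem psd {H : Type} [Group H] {φ : H → ℂ} (h : PosDef φ) (n : ℕ) (x : Fin n → H) :
    (Matrix.of fun i j => φ ((x i)⁻¹ * x j)).PosSemidef := by
  refine Matrix.PosSemidef.of_dotProduct_mulVec_nonneg ?_ fun c => ?_
  · ext i j
    rw [Matrix.conjTranspose_apply, Matrix.of_apply, Matrix.of_apply]
    rw [Complex.star_def, ← herm h, mul_inv_rev, inv_inv]
  · have h1 := h n x c
    have h2 : star c ⬝ᵥ (Matrix.of (fun i j => φ ((x i)⁻¹ * x j))).mulVec c =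
        ∑ i, ∑ j, conj (c i) * c j * φ ((x i)⁻¹ * x j) := by
      simp only [dotProduct, Matrix.mulVec, Matrix.of_apply, Pi.star_apply, RCLike.star_def,
        Finset.mul_sum]
      refine Finset.sum_congr rfl fun i _ => Finset.sum_congr rfl fun j _ => by ring
    rw [h2, Complex.le_def]
    exact ⟨h1.2, h1.1.symm⟩

theorem pdmul : S_PDMUL := by
  intro H _ φ ψ hφ hψ n x c
  have h := ((psd hφ n x).hadamard (psd hψ n x)).dotProduct_mulVec_nonneg c
  have h2 : star c ⬝ᵥ ((Matrix.of (fun i j => φ ((x i)⁻¹ * x j))).hadamard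
      (Matrix.of (fun i j => ψ ((x i)⁻¹ * x j)))).mulVec c =
        ∑ i, ∑ j, conj (c i) * c j * (φ ((x i)⁻¹ * x j) * ψ ((x i)⁻¹ * x j)) := by
    simp only [dotProduct, Matrix.mulVec, Matrix.hadamard_apply, Matrix.of_apply, Pi.star_apply,
      RCLike.star_def, Finset.mul_sum]
    refine Finset.sum_congr rfl fun i _ => Finset.sum_congr rfl fun j _ => by ring
  rw [h2, Complex.le_def] at h
  exact ⟨h.2.symm, h.1⟩

end Pool.Agent.Q204.AC
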